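import Mathlib
import Pool.Agent.TH668.Few.W3

/-!
# Explicit hitting sets for formulas in almost independent affine forms

We give explicit hitting sets for polynomials `F(ℓ_1, …, ℓ_k)`, where `ℓ_1, …, ℓ_k` are affine
forms in `n` variables which satisfy at most `c` independent linear relations (the linear parts
span a space of dimension at least `k - c`), or more generally polynomials `ℓ_i` of which all but
`c` have a Jacobian matrix with a left inverse up to a factor of the class, while the remaining
ones are polynomials in formulas in the other ones. Here `F` is a polynomial in `w` polynomials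
computed by arithmetic formulas of any size and depth in which every variable occurs in at most `w`
leaves; the leaves are computed by (nested) linear programs of width `w` which read every variable
at most `w` times, in any order, for instance oblivious algebraic branching programs. The explicit
set has `((d+1)(nd+1))^(m(t+1))` points, where `m` is a constant, `d` is the degree and `t` is the
rank of the formulas (their Strahler number when only product gates count), which is at most the
logarithm of their size. Independent forms (`c = 0`) are the orbits of such polynomials.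

Idea of the proof: the variables of the exceptional forms occur in few leaves. Hence `F` is a
polynomial in these variables and in boundedly many formulas of the same kind without these
variables. We substitute the relations and obtain a composite of boundedly many formulas in
independent forms; it is evaluated on a chain of primes which loses one step under differentiation
(`Pool.Agent.W943`, `Pool.Agent.TH668.Orf`), in which the exceptional variables are made free.
-/

namespace Pool.Agent.Results.MP_e2be99_lc.FewRelations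

open MvPolynomial

/-- Formulas in `n` variables: the leaves are polynomials, a gate computes
`c₀ + c₁ a + c₂ b + c₃ a b` from the values `a`, `b` of its arguments (in particular `a + b`,
`a - b` and `a b`). -/
inductive Formula (n : ℕ) : Type
  | leaf (g : MvPolynomial (Fin n) ℂ) : Formula n
  | gate (c₀ c₁ c₂ c₃ : ℂ) (a b : Formula n) : Formula n

variable {n : ℕ}

/-- the polynomial computed by a formula -/
noncomputable def Formula.value : Formula n → MvPolynomial (Fin n) ℂ
  | .leaf g => g
  | .gate c₀ c₁ c₂ c₃ a b => C c₀ + C c₁ * a.value + C c₂ * b.value + C c₃ * (a.value * b.value)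

open Classical in
/-- the number of leaves in which the variable `x` occurs -/
noncomputable def Formula.reads : Formula n → Fin n → ℕ
  | .leaf g, x => if x ∈ g.vars then 1 else 0
  | .gate _ _ _ _ a b, x => a.reads x + b.reads x

/-- the set of the polynomials at the leaves -/
def Formula.leaves : Formula n → Set (MvPolynomial (Fin n) ℂ)
  | .leaf g => {g}
  | .gate _ _ _ _ a b => a.leaves ∪ b.leaves

/-- the number of leaves -/
def Formula.size : Formula n → ℕ
  | .leaf _ => 1
  | .gate _ _ _ _ a b => a.size + b.size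

open Classical in
/-- The rank of a formula: `0` for leaves. At a gate with `c₃ = 0` it is the maximum of the ranks
of the arguments. At a gate with `c₃ ≠ 0` it is this maximum if the ranks of the arguments are
different, and it is larger by one if they are equal. -/
noncomputable def Formula.rank : Formula n → ℕ
  | .leaf _ => 0
  | .gate _ _ _ c₃ a b =>
    if c₃ ≠ 0 ∧ a.rank = b.rank then a.rank + 1 else max a.rank b.rank

/-- `Leaf w D f`: the polynomial `f` is computed with width, number of reads and rank at most `w`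
and nesting depth `D`.
* `base` (depth `0`): sums of `w` products of `w` univariate polynomials of arbitrary degree and a
  polynomial of total degree at most `w`.
* `linear` (depth `D + 1`): the bilinear form `u ⬝ M_0 M_1 ⋯ M_{R-1} ⬝ v` of any length `R`, where
  the entries of the `w × w` matrices `M_t` have depth `D` and every variable occurs in at most `w`
  of these matrices.
* `formula` (depth `D + 1`): the value of a formula of any size with leaves of depth `D`, in which
  every variable occurs in at most `w` leaves and whose rank is at most `w`. -/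
inductive Leaf (w : ℕ) : ℕ → MvPolynomial (Fin n) ℂ → Prop
  | base (i : Fin w → Fin w → Fin n) (p : Fin w → Fin w → Polynomial ℂ)
      (g : Fin w → MvPolynomial (Fin n) ℂ) (hg : ∀ a, (g a).totalDegree ≤ w) :
      Leaf w 0 (∑ a, (∏ b, Polynomial.aeval (X (i a b)) (p a b)) * g a)
  | up {D : ℕ} {f : MvPolynomial (Fin n) ℂ} : Leaf w D f → Leaf w (D + 1) f
  | linear {D : ℕ} (R : ℕ) (M : Fin R → Matrix (Fin w) (Fin w) (MvPolynomial (Fin n) ℂ))
      (u v : Fin w → ℂ) (hM : ∀ t i j, Leaf w D (M t i j))
      (hR : ∀ k, (Finset.univ.filter fun t => ∃ i j, k ∈ (M t i j).vars).card ≤ w) :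
      Leaf w (D + 1) (∑ i, ∑ j, C (u i) * (List.ofFn M).prod i j * C (v j))
  | formula {D : ℕ} (E : Formula n) : (∀ g, g ∈ E.leaves → Leaf w D g) →
      (∀ x, E.reads x ≤ w) → E.rank ≤ w → Leaf w (D + 1) E.value

/-- Polynomials in the values of `w` formulas of any size and of rank at most `t`, in which every
variable occurs in at most `w` leaves, with leaves of depth `D`. -/
def PolyFormulas (w D t : ℕ) (F : MvPolynomial (Fin n) ℂ) : Prop :=
  ∃ (E : Fin w → Formula n) (P : MvPolynomial (Fin w) ℂ),
    (∀ i, (∀ g, g ∈ (E i).leaves → Leaf w D g) ∧ (∀ x, (E i).reads x ≤ w) ∧ (E i).rank ≤ t) ∧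
    F = aeval (fun i => (E i).value) P

/-- `Cls m w D c n s f`: the polynomial `f` in `n` variables is in the class with `s` seed pairs.
* `relations`: nonzero polynomials `F(φ_1, …, φ_k)`, where `F` is a polynomial in `w` formulas of
  rank at most `t` and `φ_1, …, φ_k` are polynomials in `n` variables with at most `c` exceptional
  ones (`i ∈ A`). The exceptional ones are polynomials in `w` formulas in the other ones. The
  Jacobian matrix of the other ones has a left inverse over the polynomial ring up to a factor `Δ`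
  in the class.
* The class contains the nonzero constants and it is closed under products and factors.
* `primitive`: polynomials with a derivative along a vector field in the class.
* `comp`: compositions `F(φ_1, …, φ_k)` of members `F` with tuples `φ` of polynomials whose
  Jacobian matrix has a left inverse over the polynomial ring up to a factor `Δ` in the class (for
  example linearly independent affine forms, with `Δ = 1`, which does not need any seeds). -/
inductive Cls (m w D c : ℕ) : (n : ℕ) → ℕ → MvPolynomial (Fin n) ℂ → Prop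
  | relations {n k s t : ℕ} {F : MvPolynomial (Fin k) ℂ} (hF : PolyFormulas w D t F)
      (φ : Fin k → MvPolynomial (Fin n) ℂ) (A : Finset (Fin k)) (hA : A.card ≤ c)
      (h : Fin k → MvPolynomial (Fin k) ℂ) (hh : ∀ e ∈ A, PolyFormulas w D t (h e))
      (hhA : ∀ e ∈ A, Disjoint (h e).vars A) (hφ : ∀ e ∈ A, φ e = aeval φ (h e))
      (E : Fin k → Fin n → MvPolynomial (Fin n) ℂ) {Δ : MvPolynomial (Fin n) ℂ}
      (hE : ∀ i j, i ∉ A → j ∉ A → ∑ l, E i l * pderiv l (φ j) = if i = j then Δ else 0)
      (hΔ : Cls m w D c n s Δ) (h0 : aeval φ F ≠ 0) :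
      Cls m w D c n (s + m * (t + 1)) (aeval φ F)
  | const {n : ℕ} {a : ℂ} (ha : a ≠ 0) : Cls m w D c n 0 (C a)
  | mono {n s s' : ℕ} {f : MvPolynomial (Fin n) ℂ} (h : Cls m w D c n s f) (hs : s ≤ s') :
      Cls m w D c n s' f
  | mul {n s : ℕ} {f g : MvPolynomial (Fin n) ℂ} (hf : Cls m w D c n s f)
      (hg : Cls m w D c n s g) : Cls m w D c n s (f * g)
  | factor {n s : ℕ} {f g : MvPolynomial (Fin n) ℂ} (hg : Cls m w D c n s g) (h : f ∣ g) :
      Cls m w D c n s f
  | primitive {n s : ℕ} {f : MvPolynomial (Fin n) ℂ} (V : Fin n → MvPolynomial (Fin n) ℂ)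
      (h : Cls m w D c n s (∑ l, V l * pderiv l f)) : Cls m w D c n (s + 1) f
  | comp {n k s s' : ℕ} {F : MvPolynomial (Fin k) ℂ} (hF : Cls m w D c k s' F)
      (φ : Fin k → MvPolynomial (Fin n) ℂ) (E : Fin k → Fin n → MvPolynomial (Fin n) ℂ)
      {Δ : MvPolynomial (Fin n) ℂ}
      (hE : ∀ i j, ∑ l, E i l * pderiv l (φ j) = if i = j then Δ else 0)
      (hΔ : Cls m w D c n s Δ) : Cls m w D c n (s + s') (aeval φ F)

/-- The oblivious branching program `u ⬝ M_0(x_{a 0}) M_1(x_{a 1}) ⋯ M_{l-1}(x_{a (l-1)}) ⬝ v` of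
width `w`, with matrices of univariate polynomials, which reads the variables in the order
`a 0, a 1, …, a (l-1)`. -/
noncomputable def oblivious {n w l : ℕ} (a : Fin l → Fin n)
    (M : Fin l → Matrix (Fin w) (Fin w) (Polynomial ℂ)) (u v : Fin w → ℂ) :
    MvPolynomial (Fin n) ℂ :=
  ∑ i, ∑ j, C (u i) * (List.ofFn fun t : Fin l =>
    (M t).map (Polynomial.aeval (X (a t) : MvPolynomial (Fin n) ℂ))).prod i j * C (v j)

/-- The point with seeds `y, z ∈ ℕ^s`: its `i`-th coordinate is
`∑_l y_l ∏_{k ≠ i} (z_l - k)` (the Shpilka–Volkovich generator with nodes `0, …, n-1`). -/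
def point (n s : ℕ) (y z : Fin s → ℕ) : Fin n → ℤ :=
  fun i => ∑ l : Fin s, (y l : ℤ) * ∏ k ∈ Finset.univ.erase i, ((z l : ℤ) - (k.val : ℤ))

/-- The explicit set of all points with seeds `y ∈ {0,…,d}^s`, `z ∈ {0,…,nd}^s`. -/
def points (n s d : ℕ) : Finset (Fin n → ℤ) :=
  ((Fintype.piFinset fun _ : Fin s => Finset.range (d + 1)) ×ˢ
    (Fintype.piFinset fun _ : Fin s => Finset.range (n * d + 1))).image
    fun yz => point n s yz.1 yz.2

open Pool.Agent.W943 Pool.Agent.H530R2 Pool.Agent.TH668.Orf Pool.Agent.TH668.Few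

theorem rowOf_eq {n w : ℕ} (u : Fin w → ℂ)
    (M : ℕ → Matrix (Fin w) (Fin w) (MvPolynomial (Fin n) ℂ)) (R : ℕ) (j : Fin w) :
    rowOf u M R j = ∑ i, C (u i) * (List.ofFn fun t : Fin R => M t).prod i j := by
  induction R generalizing j with
  | zero =>
    simp [rowOf, Matrix.one_apply]
  | succ R ih =>
    simp only [rowOf]
    rw [List.ofFn_succ', List.concat_eq_append, List.prod_append, List.prod_singleton]
    simp only [Matrix.mul_apply, Fin.val_last, Fin.val_castSucc, Finset.mul_sum]
    rw [Finset.sum_comm]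
    apply Finset.sum_congr rfl
    intro l _
    rw [ih l, Finset.sum_mul]
    apply Finset.sum_congr rfl
    intro i _
    ring

/-- translation to the formulas of `Pool.Agent.H530R2` -/
noncomputable def toTr : Formula n → Tr ℂ n
  | .leaf g => .leaf g
  | .gate c₀ c₁ c₂ c₃ a b =>
    .gate (C c₀ + C c₁ * X 0 + C c₂ * X 1 + C c₃ * (X 0 * X 1)) (toTr a) (toTr b)

theorem toTr_val (E : Formula n) : (toTr E).val = E.value := by
  induction E with
  | leaf g => rfl
  | gate c₀ c₁ c₂ c₃ a b iha ihb =>
    simp only [toTr, Tr.val, Formula.value, map_add, map_mul, algHom_C, aeval_X, iha, ihb]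
    rfl

theorem toTr_occ (E : Formula n) (x : Fin n) : (toTr E).occ x = E.reads x := by
  induction E with
  | leaf g => simp only [toTr, Tr.occ, Formula.reads]
  | gate c₀ c₁ c₂ c₃ a b iha ihb => simp only [toTr, Tr.occ, Formula.reads, iha, ihb]

theorem toTr_ml (E : Formula n) : (toTr E).ML := by
  induction E with
  | leaf g => trivial
  | gate c₀ c₁ c₂ c₃ a b iha ihb => exact ⟨iha, ihb, c₀, c₁, c₂, c₃, rfl⟩

theorem toTr_rk (E : Formula n) : (toTr E).rk = E.rank := by
  classical
  induction E with
  | leaf g => rfl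
  | gate c₀ c₁ c₂ c₃ a b iha ihb =>
    simp only [toTr, Tr.rk, Formula.rank, cpr_affine, iha, ihb, stf]
    by_cases h : c₃ = 0
    · rw [if_pos h, if_neg (fun hc => hc.1 h)]
    · rw [if_neg h]
      by_cases h' : a.rank = b.rank
      · rw [if_pos h', if_pos ⟨h, h'⟩]
      · rw [if_neg h', if_neg (fun hc => h' hc.2)]

theorem toTr_lv {L : Set (MvPolynomial (Fin n) ℂ)} (E : Formula n)
    (h : ∀ g, g ∈ E.leaves → g ∈ L) : (toTr E).Lv L := by
  induction E with
  | leaf g => exact h g rfl
  | gate c₀ c₁ c₂ c₃ a b iha ihb =>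
    exact ⟨iha fun g hg => h g (Or.inl hg), ihb fun g hg => h g (Or.inr hg)⟩

theorem two_pow_rank (E : Formula n) : 2 ^ E.rank ≤ E.size := by
  classical
  induction E with
  | leaf g => exact le_rfl
  | gate c₀ c₁ c₂ c₃ a b iha ihb =>
    simp only [Formula.rank, Formula.size]
    split_ifs with h
    · rw [pow_succ]
      have h1 := h.2
      rw [← h1] at ihb
      omega
    · rcases le_total a.rank b.rank with h1 | h1
      · rw [max_eq_right h1]
        omega
      · rw [max_eq_left h1]
        omega

theorem toTr_gd {L : Set (MvPolynomial (Fin n) ℂ)} {K : ℕ} (E : Formula n)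
    (h : ∀ g, g ∈ E.leaves → g ∈ L) (hK : ∀ x, E.reads x ≤ K) : Gd L K (toTr E) :=
  ⟨toTr_ml E, toTr_lv E h, fun i => by rw [toTr_occ]; exact hK i⟩

/-- the matrices of a linear program as a sequence -/
noncomputable def seqM {R w : ℕ} (M : Fin R → Matrix (Fin w) (Fin w) (MvPolynomial (Fin n) ℂ)) :
    ℕ → Matrix (Fin w) (Fin w) (MvPolynomial (Fin n) ℂ) :=
  fun t => if h : t < R then M ⟨t, h⟩ else 0

theorem seqM_fin {R w : ℕ} (M : Fin R → Matrix (Fin w) (Fin w) (MvPolynomial (Fin n) ℂ))
    (t : Fin R) : seqM M t = M t := by simp [seqM, t.isLt]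

theorem seqM_card {R w : ℕ} (M : Fin R → Matrix (Fin w) (Fin w) (MvPolynomial (Fin n) ℂ))
    {q : ℕ} (hR : ∀ k, (Finset.univ.filter fun t => ∃ i j, k ∈ (M t i j).vars).card ≤ q)
    (x : Fin n) :
    ((Finset.range R).filter fun t => ∃ l j, x ∈ (seqM M t l j).vars).card ≤ q := by
  refine le_trans ?_ (hR x)
  rw [← Finset.card_map (⟨Fin.val, Fin.val_injective⟩ : Fin R ↪ ℕ)]
  apply Finset.card_le_card
  intro t ht
  obtain ⟨ht1, l, j, hlj⟩ := Finset.mem_filter.1 ht
  rw [Finset.mem_range] at ht1
  refine Finset.mem_map.2 ⟨⟨t, ht1⟩, Finset.mem_filter.2 ⟨Finset.mem_univ _, l, j, ?_⟩, rfl⟩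
  have h1 := seqM_fin M ⟨t, ht1⟩
  rwa [← h1]

theorem seqM_sum {R w : ℕ} (M : Fin R → Matrix (Fin w) (Fin w) (MvPolynomial (Fin n) ℂ))
    (u v : Fin w → ℂ) : ∑ j, rowOf u (seqM M) R j * C (v j) =
      ∑ i, ∑ j, C (u i) * (List.ofFn M).prod i j * C (v j) := by
  rw [Finset.sum_comm]
  apply Finset.sum_congr rfl
  intro j _
  rw [rowOf_eq, Finset.sum_mul]
  simp only [seqM_fin]

theorem bdA_le (w D : ℕ) : bdA (upO D) w (bdO w D) ≤ bdO w (D + 1) := Nat.le_add_right _ _

theorem bdA_pos (w D : ℕ) : 1 ≤ bdA (upO D) w (bdO w D) := by unfold bdA; omega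

theorem mem_next {w D : ℕ} {f : MvPolynomial (Fin n) ℂ} (h : f ∈ (upO D).K n (bdO w D)) :
    f ∈ (upO D).next.K n (bdA (upO D) w (bdO w D)) :=
  (upO D).toNext (by unfold bdA; omega) (bdA_pos w D) (by unfold bdA; omega) h

theorem mem_up {w D : ℕ} {f : MvPolynomial (Fin n) ℂ}
    (h : f ∈ (upO D).next.K n (bdA (upO D) w (bdO w D))) : f ∈ (upO (D + 1)).K n (bdO w (D + 1)) :=
  (upO (D + 1)).mono (bdA_le w D) (next_up (bdA_pos w D) h)

theorem leaf_mem {n w D : ℕ} {f : MvPolynomial (Fin n) ℂ} (h : Leaf w D f) :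
    f ∈ (upO D).K n (bdO w D) := by
  classical
  induction h with
  | base i p g hg =>
    show SP _ _ _ _
    refine ⟨Fin w, inferInstance, fun a => ∏ b, Polynomial.aeval (X (i a b)) (p a b), g, ?_,
      fun a => ?_, hg, rfl⟩
    · rw [Fintype.card_fin]; exact le_rfl
    · refine ⟨List.ofFn fun b => (i a b, p a b), ?_, ?_⟩
      · rw [List.length_ofFn]; exact le_rfl
      · rw [List.map_ofFn, List.prod_ofFn]
        rfl
  | @up D f _ ih => exact mem_up (mem_next ih)
  | @linear D R M u v hM hR ih =>
    have h1 := linear_mem (upO D) (W := bdO w D) (k := w) u v (seqM M) R (fun t ht l j => by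
      have := seqM_fin M ⟨t, ht⟩
      simp only at this
      rw [this]
      exact ih _ _ _) (seqM_card M hR)
    rw [seqM_sum] at h1
    exact mem_up ((upO D).next.mono (by unfold bdA; omega) h1)
  | @formula D E _ hocc hrk ih =>
    rw [← toTr_val]
    have hw : w ≤ bdA (upO D) w (bdO w D) := by unfold bdA; omega
    have hG : Gd ((upO D).next.K n (bdA (upO D) w (bdO w D))) (bdA (upO D) w (bdO w D))
        (toTr E) := toTr_gd E (fun g hg => mem_next (ih g hg)) fun x => (hocc x).trans hw
    refine OutT.ofVal (𝔎 := (upO D).next) (bdA_pos w D) hG ?_ (bdA_le w D) ?_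
    · rw [toTr_rk]
      exact hrk.trans hw
    · exact Nat.le_add_left _ _

theorem leaf_gn {n w D c : ℕ} {f : MvPolynomial (Fin n) ℂ} (h : Leaf w D f)
    {A : Finset (Fin n)} (hA : A.card ≤ c) :
    Gn ((upO D).K n (bdO w D)) A (gnO w c D) f := by
  classical
  induction h with
  | base i p g hg => exact base_gn i p g hg hA
  | @up D f _ ih =>
    refine ih.mono (fun x hx => mem_up (mem_next hx)) ?_
    show _ ≤ gnO w c D + _ + _
    omega
  | @linear D R M u v hM hR ih =>
    have h1 : Gn ((upO (D + 1)).K n (bdO w (D + 1))) A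
        ((c * w) * (w * w + w * w * gnO w c D) + w * w)
        (∑ i, ∑ j, C (u i) * (List.ofFn M).prod i j * C (v j)) := by
      refine gn_lin (c₀ := fun j => C (u j)) (fun i => ⟨u i, rfl⟩) (M := seqM M) R (κ := w)
        ?_ hA ?_ ?_ ?_
      · intro x
        refine le_trans (Finset.card_le_card ?_) (seqM_card M hR x)
        intro t ht
        obtain ⟨h1, h2⟩ := Finset.mem_filter.1 ht
        exact Finset.mem_filter.2 ⟨h1, mem_mv.1 h2⟩
      · intro a t hat i j
        have h2 := seg_mem (upO D) (W := bdO w D) (k := w) (seqM M) R (fun t ht l j => by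
          have := seqM_fin M ⟨t, ht⟩
          simp only at this
          rw [this]
          exact leaf_mem (hM _ _ _)) (fun x => by
          refine le_trans (Finset.card_le_card ?_) (seqM_card M hR x)
          intro t ht
          obtain ⟨h1, h2⟩ := Finset.mem_filter.1 ht
          exact Finset.mem_filter.2 ⟨h1, mem_mv.1 h2⟩) a t hat i j
        exact mem_up ((upO D).next.mono (by unfold bdA; omega) h2)
      · intro b i j
        by_cases hb : b < R
        · have := seqM_fin M ⟨b, hb⟩
          simp only at this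
          rw [this]
          exact (ih _ _ _).mono (fun x hx => mem_up (mem_next hx)) le_rfl
        · have h2 : seqM M b i j = 0 := by simp [seqM, hb]
          rw [h2]
          exact Gn.zero
      · rw [← seqM_sum, lin_rowOf]
        refine Subalgebra.sum_mem _ fun j _ => Subalgebra.mul_mem _
          (Algebra.subset_adjoin ⟨j, rfl⟩) (Subalgebra.algebraMap_mem _ _)
    refine h1.mono le_rfl ?_
    show _ ≤ gnO w c D + _ + _
    omega
  | @formula D E hL hocc hrk ih =>
    rw [← toTr_val]
    set N := (upO D).next.K n (bdA (upO D) w (bdO w D)) with hN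
    have hw : w ≤ bdA (upO D) w (bdO w D) := by unfold bdA; omega
    have hC : ∀ y, C y ∈ N := fun y => (upO D).next.mono (bdA_pos w D)
      ((upO D).next.const_mem y)
    have hG : Gd {g | g ∈ N ∧ Gn N A (gnO w c D) g} w (toTr E) :=
      toTr_gd E (fun g hg => ⟨mem_next (leaf_mem (hL g hg)),
        (ih g hg).mono (fun x hx => mem_next hx) le_rfl⟩) hocc
    have hrk' : (toTr E).rk ≤ w := by rw [toTr_rk]; exact hrk
    refine (VT.gn (K := bdA (upO D) w (bdO w D)) hA (fun g hg => hg.1) hC (fun g hg => hg.2) hG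
      hrk' (bdA_pos w D) hw).mono ?_ ?_
    · rintro x ⟨T, h1, h2, rfl⟩
      exact OutT.ofVal (𝔎 := (upO D).next) (bdA_pos w D) h1 (h2.trans hw) (bdA_le w D)
        (Nat.le_add_left _ _)
    · show _ ≤ gnO w c D + _ + _
      omega

theorem relations_notMem (w D c : ℕ) : ∃ m : ℕ, ∀ (n k s t : ℕ) (F : MvPolynomial (Fin k) ℂ),
    PolyFormulas w D t F → ∀ (φ : Fin k → MvPolynomial (Fin n) ℂ) (A : Finset (Fin k)),
    A.card ≤ c → ∀ h : Fin k → MvPolynomial (Fin k) ℂ, (∀ e ∈ A, PolyFormulas w D t (h e)) →
    (∀ e ∈ A, Disjoint (h e).vars A) → (∀ e ∈ A, φ e = aeval φ (h e)) →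
    ∀ (E : Fin k → Fin n → MvPolynomial (Fin n) ℂ) (Δ : MvPolynomial (Fin n) ℂ),
    (∀ i j, i ∉ A → j ∉ A → ∑ l, E i l * pderiv l (φ j) = if i = j then Δ else 0) →
    aeval φ F ≠ 0 → ∀ V : DChain ℂ n, Δ ∉ V.I s → aeval φ F ∉ V.I (s + m * (t + 1)) := by
  classical
  obtain ⟨m, hm⟩ := few (upO D) w (w + 1) (bdO w D + 1) c (gnO w c D) (Nat.le_add_left _ _)
    (Nat.le_succ _) (by rw [upO_cc]; exact Nat.le_add_left _ _)
  refine ⟨m, ?_⟩
  intro n k s t F hF φ A hA h hh hhA hφ E Δ hE h0 V hΔ
  obtain ⟨B, P, hB, rfl⟩ := hF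
  have hval : ∀ {k : ℕ} (B : Fin w → Formula k), (fun i => (B i).value) =
      fun i => (toTr (B i)).val := fun B => funext fun i => (toTr_val _).symm
  choose B' P' hB' hP' using hh
  have h1 : ∀ e (he : e ∈ A), ∃ (T : Fin w → Tr ℂ k) (P : MvPolynomial (Fin w) ℂ),
      (∀ i, Gd ((upO D).K k (bdO w D + 1)) w (T i) ∧ (T i).rk ≤ t) ∧
      aeval (fun i => (T i).val) P = h e := by
    intro e he
    refine ⟨fun i => toTr (B' e he i), P' e he, fun i => ⟨toTr_gd _ (fun g hg =>
      (upO D).mono (Nat.le_succ _) (leaf_mem ((hB' e he i).1 g hg))) (hB' e he i).2.1, ?_⟩, ?_⟩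
    · rw [toTr_rk]
      exact (hB' e he i).2.2
    · rw [← hval, ← hP' e he]
  have hne1 : Nonempty (Fin w → Tr ℂ k) := ⟨fun _ => .leaf 0⟩
  have hne2 : Nonempty (MvPolynomial (Fin w) ℂ) := ⟨0⟩
  choose! T' P'' hT' hP'' using h1
  rw [hval] at h0 ⊢
  refine hm n k t s V {g | Leaf w D g} A (fun i => toTr (B i)) P φ E Δ T' P''
    (fun g hg => (upO D).mono (Nat.le_succ _) (leaf_mem hg)) hA
    (fun g hg => (leaf_gn hg hA).mono (fun x hx => (upO D).mono (Nat.le_succ _) hx) le_rfl)
    (fun i => ⟨toTr_gd _ (hB i).1 (hB i).2.1, by rw [toTr_rk]; exact (hB i).2.2⟩)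
    hT' (fun e he => ?_) (fun e he => ?_) hE hΔ h0
  · rw [hP'' e he, mem_supported]
    intro x hx hxA
    exact Finset.disjoint_left.1 (hhA e he) (Finset.mem_coe.1 hx) hxA
  · rw [hP'' e he]
    exact hφ e he

/-- The polynomials of the class are not in the primes of the corresponding level. -/
theorem Cls.notMem {m w D c : ℕ} (hm : ∀ (n k s t : ℕ) (F : MvPolynomial (Fin k) ℂ),
    PolyFormulas w D t F → ∀ (φ : Fin k → MvPolynomial (Fin n) ℂ) (A : Finset (Fin k)),
    A.card ≤ c → ∀ h : Fin k → MvPolynomial (Fin k) ℂ, (∀ e ∈ A, PolyFormulas w D t (h e)) →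
    (∀ e ∈ A, Disjoint (h e).vars A) → (∀ e ∈ A, φ e = aeval φ (h e)) →
    ∀ (E : Fin k → Fin n → MvPolynomial (Fin n) ℂ) (Δ : MvPolynomial (Fin n) ℂ),
    (∀ i j, i ∉ A → j ∉ A → ∑ l, E i l * pderiv l (φ j) = if i = j then Δ else 0) →
    aeval φ F ≠ 0 → ∀ V : DChain ℂ n, Δ ∉ V.I s → aeval φ F ∉ V.I (s + m * (t + 1)))
    {n s : ℕ} {f : MvPolynomial (Fin n) ℂ} (h : Cls m w D c n s f) :
    ∀ V : DChain ℂ n, f ∉ V.I s := by
  induction h with
  | relations hF φ A hA h hh hhA hφ E hE hΔ h0 ih =>
    exact fun V => hm _ _ _ _ _ hF φ A hA h hh hhA hφ E _ hE h0 V (ih V)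
  | const ha => exact fun V hmem => ha (V.const_mem hmem)
  | mono h hs ih => exact fun V hc => ih V (V.mono hs hc)
  | mul hf hg ihf ihg =>
    intro V hc
    rcases (V.prime _).mem_or_mem hc with h | h
    · exact ihf V h
    · exact ihg V h
  | factor hg h ih => exact fun V hc => ih V (Ideal.mem_of_dvd _ h hc)
  | primitive D h ih => exact fun V hc => ih V (V.vf_mem D hc)
  | comp hF φ E hE hΔ ihF ihΔ =>
    intro V hc
    exact ihF (V.pull φ E _ hE _ (ihΔ V)) hc

theorem Leaf.lift {w : ℕ} {f : MvPolynomial (Fin n) ℂ} (h : Leaf w 0 f) (D : ℕ) : Leaf w D f := by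
  induction D with
  | zero => exact h
  | succ D ih => exact Leaf.up ih

/-- polynomials of low degree -/
theorem leaf_low {w D : ℕ} (hw : 1 ≤ w) {f : MvPolynomial (Fin n) ℂ} (hn : 0 < n)
    (hf : f.totalDegree ≤ w) : Leaf w D f := by
  classical
  apply Leaf.lift
  have key := Leaf.base (n := n) (w := w) (fun _ _ => ⟨0, hn⟩) (fun _ _ => 1)
      (fun a => if a.val = 0 then f else 0) (fun a => by
        split_ifs
        · exact hf
        · rw [totalDegree_zero]; exact Nat.zero_le _)
  have h1 : (∑ a : Fin w, (∏ b : Fin w, Polynomial.aeval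
      (X ⟨0, hn⟩ : MvPolynomial (Fin n) ℂ) (1 : Polynomial ℂ)) *
      (if a.val = 0 then f else 0)) = f := by
    rw [Finset.sum_eq_single (⟨0, hw⟩ : Fin w)]
    · simp
    · intro a _ ha
      have : ¬ a.val = 0 := fun h => ha (Fin.ext h)
      simp [this]
    · intro h; exact absurd (Finset.mem_univ _) h
  rw [h1] at key
  exact key

theorem low_polyFormulas {w D t : ℕ} (hw : 1 ≤ w) {f : MvPolynomial (Fin n) ℂ} (hn : 0 < n)
    (hf : f.totalDegree ≤ w) : PolyFormulas w D t f := by
  classical
  refine ⟨fun _ => .leaf f, X ⟨0, hw⟩, fun i => ⟨?_, fun x => ?_, Nat.zero_le _⟩, ?_⟩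
  · rintro g rfl
    exact leaf_low hw hn hf
  · show (if x ∈ f.vars then 1 else 0) ≤ w
    split_ifs
    · exact hw
    · exact Nat.zero_le _
  · rw [aeval_X]
    rfl

/-- affine forms -/
noncomputable def form (a : Fin n → ℂ) (b : ℂ) : MvPolynomial (Fin n) ℂ :=
  ∑ l, C (a l) * X l + C b

theorem pderiv_form (a : Fin n → ℂ) (b : ℂ) (l : Fin n) : pderiv l (form a b) = C (a l) := by
  classical
  unfold form
  rw [map_add, pderiv_C, add_zero, map_sum, Finset.sum_eq_single l]
  · rw [pderiv_C_mul, pderiv_X_self, mul_one]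
  · intro l' _ hl'
    rw [pderiv_C_mul, pderiv_X_of_ne hl', mul_zero]
  · intro h; exact absurd (Finset.mem_univ _) h

/-- Polynomials in `w` formulas evaluated at `k` affine forms whose linear parts span a space of
dimension at least `k - c`. -/
theorem affine_relations {m w D c n k t : ℕ} (hw : 1 ≤ w) {F : MvPolynomial (Fin k) ℂ}
    (hF : PolyFormulas w D t F) (A : Fin k → Fin n → ℂ) (b : Fin k → ℂ)
    (hA : k ≤ Module.finrank ℂ (Submodule.span ℂ (Set.range A)) + c)
    (h0 : aeval (fun i => form (A i) (b i)) F ≠ 0) :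
    Cls m w D c n (m * (t + 1)) (aeval (fun i => form (A i) (b i)) F) := by
  classical
  obtain ⟨κ, a, ha, hspan, hli⟩ := exists_linearIndependent' ℂ A
  have hfin : Finite κ := Finite.of_injective a ha
  have hft : Fintype κ := Fintype.ofFinite κ
  have hrank : Module.finrank ℂ (Submodule.span ℂ (Set.range A)) = Fintype.card κ := by
    rw [← hspan]
    exact finrank_span_eq_card hli
  set S : Finset (Fin k) := Finset.univ \ Finset.univ.image a with hS
  have hSc : S.card ≤ c := by
    rw [hS, Finset.card_sdiff_of_subset (Finset.subset_univ _), Finset.card_univ,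
      Fintype.card_fin, Finset.card_image_of_injective _ ha, Finset.card_univ]
    omega
  have hnS : ∀ i, i ∉ S → ∃ x, a x = i := by
    intro i hi
    by_contra hc
    apply hi
    refine Finset.mem_sdiff.2 ⟨Finset.mem_univ _, fun h => hc ?_⟩
    obtain ⟨x, _, hx⟩ := Finset.mem_image.1 h
    exact ⟨x, hx⟩
  have haS : ∀ x, a x ∉ S := fun x hx =>
    (Finset.mem_sdiff.1 hx).2 (Finset.mem_image_of_mem _ (Finset.mem_univ _))
  -- relations
  have hrel : ∀ e, ∃ lam : κ → ℂ, ∑ x, lam x • A (a x) = A e := by
    intro e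
    have h1 : A e ∈ Submodule.span ℂ (Set.range (A ∘ a)) := by
      rw [hspan]
      exact Submodule.subset_span ⟨e, rfl⟩
    exact (Submodule.mem_span_range_iff_exists_fun ℂ).1 h1
  choose lam hlam using hrel
  set h : Fin k → MvPolynomial (Fin k) ℂ := fun e =>
    ∑ x, C (lam e x) * (X (a x) - C (b (a x))) + C (b e) with hh
  -- dual vectors
  have hdual : ∀ i : Fin k, ∃ d : Fin n → ℂ, ∀ x, A (a x) ⬝ᵥ d = if i = a x then 1 else 0 := by
    intro i
    set e := Fintype.equivFin κ with he
    obtain ⟨d, hd⟩ := Pool.Agent.H530R2.exists_dual (fun y => A (a (e.symm y)))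
      (hli.comp e.symm e.symm.injective) (fun y => if i = a (e.symm y) then 1 else 0)
    refine ⟨d, fun x => ?_⟩
    have h1 := hd (e x)
    simpa using h1
  choose d hd using hdual
  have hdeg : ∀ e, (h e).totalDegree ≤ w := by
    intro e
    refine (totalDegree_add _ _).trans (max_le ?_ ?_)
    · refine (totalDegree_finsetSum _ _).trans (Finset.sup_le fun x _ => ?_)
      refine (totalDegree_mul _ _).trans ?_
      rw [totalDegree_C, Nat.zero_add]
      refine (totalDegree_sub _ _).trans (max_le ?_ ?_)
      · exact (totalDegree_X _).le.trans hw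
      · rw [totalDegree_C]; exact Nat.zero_le _
    · rw [totalDegree_C]; exact Nat.zero_le _
  have hval : ∀ e, aeval (fun i => form (A i) (b i)) (h e) = form (A e) (b e) := by
    intro e
    have h1 : ∀ x, aeval (fun i => form (A i) (b i)) (X (a x) - C (b (a x)) : MvPolynomial _ ℂ) =
        ∑ l, C (A (a x) l) * X l := by
      intro x
      rw [map_sub, aeval_X, algHom_C]
      show form _ _ - C _ = _
      rw [form, add_sub_cancel_right]
    simp only [hh, map_add, map_sum, map_mul, h1, algHom_C]
    show ∑ x, C (lam e x) * ∑ l, C (A (a x) l) * X l + C (b e) = form (A e) (b e)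
    unfold form
    congr 1
    simp only [Finset.mul_sum]
    rw [Finset.sum_comm]
    apply Finset.sum_congr rfl
    intro l _
    rw [← hlam e, Finset.sum_apply, map_sum, Finset.sum_mul]
    apply Finset.sum_congr rfl
    intro x _
    rw [Pi.smul_apply, smul_eq_mul, map_mul]
    ring
  have hk : ∀ e ∈ S, 0 < k := fun e _ => Fin.pos e
  have key := Cls.relations (m := m) (c := c) (n := n) (s := 0) hF
    (fun i => form (A i) (b i)) S hSc h (fun e he => low_polyFormulas hw (hk e he) (hdeg e))
    (fun e he => ?_) (fun e he => (hval e).symm) (fun i l => C (d i l)) (Δ := C 1) ?_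
    (Cls.const one_ne_zero) h0
  · rwa [Nat.zero_add] at key
  · rw [Finset.disjoint_left]
    intro x hx hxS
    have h1 : h e ∈ supported ℂ {k : Fin k | k ∉ S} := by
      refine Subalgebra.add_mem _ (Subalgebra.sum_mem _ fun x _ => Subalgebra.mul_mem _
        (Subalgebra.algebraMap_mem _ _) (Subalgebra.sub_mem _ (X_mem_supported.2 (haS x))
          (Subalgebra.algebraMap_mem _ _))) (Subalgebra.algebraMap_mem _ _)
    exact mem_supported.1 h1 (Finset.mem_coe.2 hx) hxS
  · intro i j hi hj
    obtain ⟨x, rfl⟩ := hnS j hj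
    simp only [pderiv_form, ← map_mul, ← map_sum]
    have h2 : ∑ l, d i l * A (a x) l = if i = a x then 1 else 0 := by
      rw [← hd i x, dotProduct]
      exact Finset.sum_congr rfl fun l _ => mul_comm _ _
    rw [h2]
    split_ifs
    · rfl
    · rw [map_zero]

/-- oblivious programs have depth `1` -/
theorem oblivious_leaf {n w l : ℕ} (a : Fin l → Fin n)
    (ha : ∀ i, (Finset.univ.filter fun t => a t = i).card ≤ w)
    (M : Fin l → Matrix (Fin w) (Fin w) (Polynomial ℂ)) (u v : Fin w → ℂ) :
    Leaf w 1 (oblivious a M u v) := by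
  classical
  unfold oblivious
  refine Leaf.linear l _ u v (fun t i j => ?_) (fun k => ?_)
  · have hw : 0 < w := Nat.pos_of_ne_zero fun h => by subst h; exact i.elim0
    have key := Leaf.base (n := n) (w := w) (fun _ _ => a t)
      (fun c e => if c.val = 0 ∧ e.val = 0 then M t i j else 1)
      (fun c => if c.val = 0 then 1 else 0) (fun c => by split_ifs <;> simp)
    have h1 : (∑ c : Fin w, (∏ e : Fin w, Polynomial.aeval (X (a t) : MvPolynomial (Fin n) ℂ)
        (if c.val = 0 ∧ e.val = 0 then M t i j else 1)) *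
        (if c.val = 0 then (1 : MvPolynomial (Fin n) ℂ) else 0)) =
        ((M t).map (Polynomial.aeval (X (a t) : MvPolynomial (Fin n) ℂ))) i j := by
      rw [Finset.sum_eq_single (⟨0, hw⟩ : Fin w)]
      · rw [Finset.prod_eq_single (⟨0, hw⟩ : Fin w)]
        · simp
        · intro e _ he
          have : ¬ e.val = 0 := fun h => he (Fin.ext h)
          simp [this]
        · intro h; exact absurd (Finset.mem_univ _) h
      · intro c _ hc
        have : ¬ c.val = 0 := fun h => hc (Fin.ext h)
        simp [this]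
      · intro h; exact absurd (Finset.mem_univ _) h
    rw [← h1]
    exact key
  · refine le_trans (Finset.card_le_card ?_) (ha k)
    intro t ht
    rw [Finset.mem_filter] at ht ⊢
    obtain ⟨_, i, j, hij⟩ := ht
    refine ⟨Finset.mem_univ _, ?_⟩
    have h4 := mem_supported.1 (aeval_X_supp (a t) (M t i j) (S := {a t}) rfl)
      (Finset.mem_coe.2 hij)
    exact (Set.mem_singleton_iff.1 h4).symm

/-- For all bounds `w ≥ 1`, `D`, `c` there is `m` such that for all `n, s, d` the explicit set
`points n s d ⊆ ℤ^n`, which has at most `((d+1)(nd+1))^s` elements with coordinates of polynomial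
bit length, hits all polynomials of degree at most `d` in the class `Cls m w D c n s`. This class
contains for `s = m (t + 1)` all nonzero polynomials `F(ℓ_1, …, ℓ_k)`, where `F` is a polynomial in
`w` formulas of rank `t` with at most `w` occurrences of every variable, and `ℓ_1, …, ℓ_k` are
affine forms whose linear parts span a space of dimension at least `k - c`; the rank is at most
the logarithm of the number of leaves. -/
theorem result (w D c : ℕ) (hw : 1 ≤ w) : ∃ m : ℕ,
    (∀ n s d : ℕ, (points n s d).card ≤ ((d + 1) * (n * d + 1)) ^ s ∧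
      (∀ p ∈ points n s d, ∀ i, |p i| ≤ ((s * d * (n * d + n) ^ (n - 1) : ℕ) : ℤ)) ∧
      (∀ f : MvPolynomial (Fin n) ℂ, Cls m w D c n s f → f.totalDegree ≤ d →
        ∃ p ∈ points n s d, MvPolynomial.eval (fun i => (p i : ℂ)) f ≠ 0)) ∧
    (∀ (n k t : ℕ) (F : MvPolynomial (Fin k) ℂ), PolyFormulas w D t F →
      ∀ (A : Fin k → Fin n → ℂ) (b : Fin k → ℂ),
      k ≤ Module.finrank ℂ (Submodule.span ℂ (Set.range A)) + c →
      aeval (fun i => form (A i) (b i)) F ≠ 0 →
      Cls m w D c n (m * (t + 1)) (aeval (fun i => form (A i) (b i)) F)) ∧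
    (∀ (n : ℕ) (E : Formula n), 2 ^ E.rank ≤ E.size) ∧
    (∀ (n l : ℕ) (a : Fin l → Fin n), (∀ i, (Finset.univ.filter fun t => a t = i).card ≤ w) →
      ∀ (M : Fin l → Matrix (Fin w) (Fin w) (Polynomial ℂ)) (u v : Fin w → ℂ),
      Leaf w 1 (oblivious a M u v)) := by
  obtain ⟨m, hm⟩ := relations_notMem w D c
  refine ⟨m, ?_, fun n k t F hF A b hA h0 => affine_relations hw hF A b hA h0,
    fun n E => two_pow_rank E, fun n l a ha M u v => oblivious_leaf a ha M u v⟩
  intro n s d
  refine ⟨Pool.Agent.H530R2.hitSet_card n _ d,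
    fun p hp i => Pool.Agent.H530R2.hitSet_bound n _ d p hp i, ?_⟩
  intro f hf hd
  exact Pool.Agent.H530R2.exists_hit n s d f hd (hf.notMem hm
    (Pool.Agent.W943.genChain (fun i : Fin n => ((i.val : ℕ) : ℂ))
      (Pool.Agent.H530R2.nodes_injective n)))

end Pool.Agent.Results.MP_e2be99_lc.FewRelations
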