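import Mathlib
import Pool.Agent.TH22.Wp.Main
import Pool.Agent.TH22.Wp.Count2

/-!
# Deterministic identity testing for sums of few high powers

A polynomial `f` over a field of characteristic zero is a sum of `s` `d`-th powers if
`f = ∑ i < s, a_i ℓ_i ^ d` with affine forms `ℓ_i` and constants `a_i`.

For `n` variables and the seeds `z ∈ ℕ`, `y ∈ ℕ ^ K` let the test point have the coordinates
`x_m = ∑ j < K, y_j binom(m, j) z ^ (m - j)`, `m = 0, …, n - 1`.

Let `K = 2 ⌈2 s / d⌉` if `2 s ≤ d ^ 2`, and `K = s + 1` otherwise.  The points with `z ≤ n d` and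
`∏ (y_j + 1) ≤ s (d + 1)` hit every nonzero sum of `s` `d`-th powers in `n` variables.  There are
at most `3 (n d + 1) (s (d + 1)) ^ 2 2 ^ (21 ⌈2 s / d⌉)` such points; this is polynomial in `n`
and `d` as long as `s = O(d log (n d))`, for an arbitrary number of variables.

The proof of the reduction to `K` variables uses a bound for the rank of power identities: if
`∑ i < t, c_i ℓ_i ^ d = 0` with nonzero `c_i` and pairwise non-proportional linear forms `ℓ_i`
that span a space of dimension at least `2 m - 1`, then `t ≥ m d + 1 - m (m - 3) / 2`.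
-/

set_option autoImplicit false

open MvPolynomial

namespace Pool.Agent.Results.MP_e2be99_lc.SmallWaringRank

variable {F : Type} [Field F]

/-- The affine form `b + ∑ l_m x_m`. -/
noncomputable def affineForm {n : ℕ} (b : F) (l : Fin n → F) : MvPolynomial (Fin n) F :=
  C b + ∑ m, C (l m) * X m

/-- `f` is a sum of `s` constant multiples of `d`-th powers of affine forms. -/
def IsSumOfPowers {n : ℕ} (s d : ℕ) (f : MvPolynomial (Fin n) F) : Prop :=
  ∃ (a b : Fin s → F) (l : Fin s → Fin n → F), f = ∑ i, C (a i) * affineForm (b i) (l i) ^ d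

/-- The test point with the seeds `z` and `y_0, …, y_{K-1}`. -/
def point (n K z : ℕ) (y : Fin K → ℕ) : Fin n → ℕ :=
  fun m => ∑ j : Fin K, y j * ((m : ℕ).choose j * z ^ ((m : ℕ) - j))

/-- The points with `z ≤ Z` and `∏ (y_j + 1) ≤ S`. -/
def smallPoints (n K Z S : ℕ) : Finset (Fin n → ℕ) :=
  (Finset.range (Z + 1) ×ˢ
    ((Fintype.piFinset fun _ : Fin K => Finset.range S).filter fun y => ∏ j, (y j + 1) ≤ S)).image
    fun p => point n K p.1 p.2

/-- The number `⌈2 s / d⌉`. -/
def ratio (s d : ℕ) : ℕ := (2 * s + d - 1) / d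

/-- The number of the seeds `y_j`: `2 ⌈2 s / d⌉` if `2 s ≤ d ^ 2`, otherwise `s + 1`. -/
def seeds (s d : ℕ) : ℕ := if 2 * s ≤ d ^ 2 then 2 * ratio s d else s + 1

/-- `f` does not vanish at some point of `H`. -/
def IsHitBy {n : ℕ} (f : MvPolynomial (Fin n) F) (H : Finset (Fin n → ℕ)) : Prop :=
  ∃ x ∈ H, eval (fun m => ((x m : ℕ) : F)) f ≠ 0

theorem card_smallPoints (n K Z S : ℕ) :
    (smallPoints n K Z S).card ≤ (Z + 1) * (S ^ 2 * 2 ^ K) := by
  refine Finset.card_image_le.trans ?_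
  rw [Finset.card_product, Finset.card_range]
  exact Nat.mul_le_mul_left _ (TH22.Wp.card_small K S)

theorem smallPoints_le (n K Z S : ℕ) (x : Fin n → ℕ) (hx : x ∈ smallPoints n K Z S)
    (m : Fin n) : x m ≤ K * S * (2 * (Z + 1)) ^ n := by
  obtain ⟨⟨z, y⟩, hp, rfl⟩ := Finset.mem_image.1 hx
  rw [Finset.mem_product, Finset.mem_filter, Fintype.mem_piFinset, Finset.mem_range] at hp
  exact TH22.Wp.natCoord_le y (fun j => (Finset.mem_range.1 (hp.2.1 j)).le) (by omega) m

theorem le_ratio_mul {s d : ℕ} (hd : 1 ≤ d) : 2 * s ≤ ratio s d * d := by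
  have h2 : 2 * s + d - 1 < (ratio s d + 1) * d := by
    have := Nat.lt_mul_div_succ (2 * s + d - 1) hd
    rwa [mul_comm (ratio s d + 1) d]
  have : (ratio s d + 1) * d = ratio s d * d + d := by ring
  omega

theorem hit_small [CharZero F] {n s d : ℕ} (hd : 1 ≤ d)
    (f : MvPolynomial (Fin n) F) (hf : IsSumOfPowers s d f) (hf0 : f ≠ 0) :
    IsHitBy f (smallPoints n (seeds s d) (n * d) (s * (d + 1))) := by
  have hs1 : 1 ≤ s := by
    rcases Nat.eq_zero_or_pos s with h | h
    · subst h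
      obtain ⟨a, b, l, rfl⟩ := hf
      exact absurd (by simp) hf0
    · exact h
  have h3 : 2 * s ≤ ratio s d * d := le_ratio_mul hd
  have h4 : 1 ≤ ratio s d := by
    rcases Nat.eq_zero_or_pos (ratio s d) with h | h
    · rw [h] at h3; omega
    · exact h
  obtain ⟨hK, hcase⟩ : 2 ≤ seeds s d ∧ (s ≤ seeds s d ∨ ∃ m, 1 ≤ m ∧ m ≤ d + 3 ∧
      2 * s ≤ m * d ∧ 2 * m ≤ seeds s d + 1) := by
    unfold seeds
    split_ifs with hs
    · refine ⟨by omega, Or.inr ⟨ratio s d, h4, ?_, h3, by omega⟩⟩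
      by_contra hcon
      push Not at hcon
      have h1 : ratio s d * d ≤ 2 * s + d - 1 := Nat.div_mul_le_self _ _
      have h6 : (d + 1) * d ≤ ratio s d * d := Nat.mul_le_mul_right _ (by omega)
      have h7 : (d + 1) * d = d ^ 2 + d := by ring
      omega
    · exact ⟨by omega, Or.inl (by omega)⟩
  obtain ⟨z, hz, y, hy, hne⟩ := TH22.Wp.hit_one (K := seeds s d) hd hK hcase f hf hf0
  refine ⟨point n (seeds s d) z y, ?_, hne⟩
  exact Finset.mem_image.2 ⟨(z, y), Finset.mem_product.2 ⟨hz, hy⟩, rfl⟩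

theorem card_hitting {n s d : ℕ} (hd : 1 ≤ d) :
    (smallPoints n (seeds s d) (n * d) (s * (d + 1))).card ≤
      3 * (n * d + 1) * (s * (d + 1)) ^ 2 * 2 ^ (21 * ratio s d) := by
  have hmain : (TH22.Wp.small (seeds s d) (s * (d + 1))).card ≤
      3 * (s * (d + 1)) ^ 2 * 2 ^ (21 * ratio s d) := by
    by_cases hs : 2 * s ≤ d ^ 2
    · refine (TH22.Wp.card_small _ _).trans ?_
      have h1 : 2 ^ seeds s d ≤ 2 ^ (21 * ratio s d) := by
        apply Nat.pow_le_pow_right (by norm_num)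
        rw [seeds, if_pos hs]
        omega
      calc (s * (d + 1)) ^ 2 * 2 ^ seeds s d
          ≤ (s * (d + 1)) ^ 2 * 2 ^ (21 * ratio s d) := Nat.mul_le_mul_left _ h1
        _ ≤ 3 * (s * (d + 1)) ^ 2 * 2 ^ (21 * ratio s d) := by
          apply Nat.mul_le_mul_right
          omega
    · push Not at hs
      set S := s * (d + 1) with hS
      set k := Nat.log 2 S with hk
      have hs1 : 1 ≤ s := by
        have : 0 < d ^ 2 := by positivity
        omega
      have hS1 : S ≠ 0 := by positivity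
      have hSlt : S < 2 ^ (k + 1) := Nat.lt_pow_succ_log_self (by norm_num) S
      have hKS : s + 1 ≤ S := by
        have : s * 2 ≤ s * (d + 1) := Nat.mul_le_mul_left _ (by omega)
        omega
      have hcube : S ≤ ratio s d ^ 3 := by
        have h3 : 2 * s ≤ ratio s d * d := le_ratio_mul hd
        have h8 : d ^ 3 * (d + 1) ≤ 8 * s ^ 2 := by
          have h9 : (d ^ 2) ^ 2 ≤ (2 * s) ^ 2 := Nat.pow_le_pow_left hs.le 2
          have h10 : d ^ 3 * 1 ≤ d ^ 3 * d := Nat.mul_le_mul_left _ hd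
          nlinarith
        have h11 : d ^ 3 * S ≤ d ^ 3 * ratio s d ^ 3 := by
          calc d ^ 3 * S = s * (d ^ 3 * (d + 1)) := by rw [hS]; ring
            _ ≤ s * (8 * s ^ 2) := Nat.mul_le_mul_left _ h8
            _ = (2 * s) ^ 3 := by ring
            _ ≤ (ratio s d * d) ^ 3 := Nat.pow_le_pow_left h3 3
            _ = d ^ 3 * ratio s d ^ 3 := by ring
        exact Nat.le_of_mul_le_mul_left h11 (by positivity)
      have hsq : (k + 1) ^ 2 ≤ 21 * ratio s d :=
        TH22.Wp.succ_sq_le ((Nat.pow_log_le_self 2 hS1).trans hcube)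
      rw [seeds, if_neg (by omega)]
      refine (TH22.Wp.card_small' (s + 1) S (k + 1) (by omega)).trans ?_
      calc 3 * S ^ (k + 1 + 2) = 3 * S ^ 2 * S ^ (k + 1) := by ring
        _ ≤ 3 * S ^ 2 * (2 ^ (k + 1)) ^ (k + 1) :=
            Nat.mul_le_mul_left _ (Nat.pow_le_pow_left hSlt.le _)
        _ = 3 * S ^ 2 * 2 ^ ((k + 1) ^ 2) := by rw [← pow_mul, sq (k + 1)]
        _ ≤ 3 * S ^ 2 * 2 ^ (21 * ratio s d) :=
            Nat.mul_le_mul_left _ (Nat.pow_le_pow_right (by norm_num) hsq)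
  refine Finset.card_image_le.trans ?_
  rw [Finset.card_product, Finset.card_range]
  calc (n * d + 1) * _ ≤ (n * d + 1) * (3 * (s * (d + 1)) ^ 2 * 2 ^ (21 * ratio s d)) :=
        Nat.mul_le_mul_left _ hmain
    _ = _ := by ring

/-- The size of the set is polynomial for `s = O(d log (n d))`. -/
theorem card_poly {C n s d : ℕ} (hn : 1 ≤ n) (hd : 1 ≤ d)
    (hs : s ≤ C * d * Nat.log 2 (n * d)) :
    (smallPoints n (seeds s d) (n * d) (s * (d + 1))).card ≤
      2 ^ 23 * C ^ 2 * (n * d + 1) ^ (42 * C + 7) := by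
  refine (card_hitting hd).trans ?_
  set L := Nat.log 2 (n * d) with hL
  have hnd : 1 ≤ n * d := Nat.mul_pos hn hd
  have hLlt : 2 ^ L ≤ n * d := Nat.pow_log_le_self 2 (by omega)
  have hLle : L ≤ n * d := (Nat.lt_two_pow_self).le.trans hLlt
  have hratio : ratio s d ≤ 2 * C * L + 1 := by
    unfold ratio
    rw [Nat.div_le_iff_le_mul_add_pred hd]
    have : d * (2 * C * L + 1) = 2 * (C * d * L) + d := by ring
    omega
  have h2K : 2 ^ (21 * ratio s d) ≤ 2 ^ 21 * (n * d + 1) ^ (42 * C) := by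
    calc 2 ^ (21 * ratio s d) ≤ 2 ^ (21 + 42 * C * L) :=
          Nat.pow_le_pow_right (by norm_num) (by
            have : 21 * (2 * C * L + 1) = 21 + 42 * C * L := by ring
            omega)
      _ = 2 ^ 21 * (2 ^ L) ^ (42 * C) := by
          rw [pow_add, ← pow_mul, mul_comm L (42 * C)]
      _ ≤ 2 ^ 21 * (n * d + 1) ^ (42 * C) :=
          Nat.mul_le_mul_left _ (Nat.pow_le_pow_left (by omega) _)
  have hs2 : s ≤ C * (n * d + 1) ^ 2 := by
    calc s ≤ C * d * L := hs
      _ = C * (d * L) := by ring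
      _ ≤ C * ((n * d + 1) * (n * d + 1)) := by
          apply Nat.mul_le_mul_left
          apply Nat.mul_le_mul
          · calc d = 1 * d := (one_mul d).symm
              _ ≤ n * d := Nat.mul_le_mul_right _ hn
              _ ≤ n * d + 1 := Nat.le_succ _
          · omega
      _ = C * (n * d + 1) ^ 2 := by ring
  have hd1 : d + 1 ≤ n * d + 1 := by
    have : 1 * d ≤ n * d := Nat.mul_le_mul_right _ hn
    omega
  have hS : s * (d + 1) ≤ C * (n * d + 1) ^ 3 := by
    calc s * (d + 1) ≤ (C * (n * d + 1) ^ 2) * (n * d + 1) := Nat.mul_le_mul hs2 hd1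
      _ = C * (n * d + 1) ^ 3 := by ring
  calc 3 * (n * d + 1) * (s * (d + 1)) ^ 2 * 2 ^ (21 * ratio s d)
      ≤ 3 * (n * d + 1) * (C * (n * d + 1) ^ 3) ^ 2 * (2 ^ 21 * (n * d + 1) ^ (42 * C)) := by
        apply Nat.mul_le_mul _ h2K
        exact Nat.mul_le_mul_left _ (Nat.pow_le_pow_left hS 2)
    _ = 3 * 2 ^ 21 * C ^ 2 * (n * d + 1) ^ (42 * C + 7) := by ring
    _ ≤ 2 ^ 23 * C ^ 2 * (n * d + 1) ^ (42 * C + 7) := by
        apply Nat.mul_le_mul_right
        apply Nat.mul_le_mul_right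
        norm_num

/-- **Polynomial-size hitting sets for sums of few high powers.** -/
theorem result {F : Type} [Field F] [CharZero F] (n s d : ℕ) (hd : 1 ≤ d) :
    (∀ f : MvPolynomial (Fin n) F, IsSumOfPowers s d f → f ≠ 0 →
      IsHitBy f (smallPoints n (seeds s d) (n * d) (s * (d + 1)))) ∧
    (smallPoints n (seeds s d) (n * d) (s * (d + 1))).card ≤
      3 * (n * d + 1) * (s * (d + 1)) ^ 2 * 2 ^ (21 * ratio s d) ∧
    (∀ C : ℕ, 1 ≤ n → s ≤ C * d * Nat.log 2 (n * d) →
      (smallPoints n (seeds s d) (n * d) (s * (d + 1))).card ≤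
        2 ^ 23 * C ^ 2 * (n * d + 1) ^ (42 * C + 7)) ∧
    ∀ x ∈ smallPoints n (seeds s d) (n * d) (s * (d + 1)), ∀ m,
      x m ≤ seeds s d * (s * (d + 1)) * (2 * (n * d + 1)) ^ n :=
  ⟨fun f hf hf0 => hit_small hd f hf hf0, card_hitting hd, fun _ hn hC => card_poly hn hd hC,
    fun x hx m => smallPoints_le _ _ _ _ x hx m⟩

end Pool.Agent.Results.MP_e2be99_lc.SmallWaringRank
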