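import Mathlib
import Pool.Agent.TH585.SP.Hit
import Pool.Agent.TH585.SP.Examples

set_option autoImplicit false

/-!
# Identity testing for sparse perturbations of polynomials with exchange-closed supports

All polynomials here may have circuits of any size, and arbitrary coefficients in any integral
domain of characteristic zero; only their supports matter.  A set `A` of exponent vectors is closed
under exchange with a set `D` of directions (`Exchange D A`) if for all `p ≠ q` in `A` some
`v = r - p` in `D`, `v ≠ 0`, can be moved from `q` to `p`: `p + v` and `q - v` are in `A`, and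
`q - v` is closer to `p` than `q`.  Examples are the `M`-convex sets (matroid bases, supports of
Lorentzian and of homogeneous stable polynomials), where `D` consists of the `e_j - e_i`, and the
integer points of a box in an affine lattice, where `D` is a Graver basis.

`Close N r s e f` (in `Pool/Agent/TH585/SP/Hit.lean`): the support of `f` differs in at most `s`
monomials from a union of `r` sets closed under exchange with the same at most `N` directions; all
exponents are at most `e`.  For instance `f = g + h` where `g` has an `M`-convex support and `h` is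
an arbitrary polynomial with `s` monomials, which may cancel monomials of `g`.  None of these data
are known to the test.

The test substitutes `x_i = a ^ (k ^ i mod p) b ^ (l ^ i mod p')` for all `k < p`, `l < p'` and
small positive integers `a`, `b`.  For some `k` the weight `k ^ i mod p` vanishes on no direction,
and then at most `(N + 1) s + r` monomials of `f` have minimal weight: if such a monomial, outside
the `s` exceptional ones, is not the minimum of its exchange-closed set, then an exchange leads to
a lighter monomial of this set, which must be exceptional.  The second weight separates the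
monomials of minimal weight.
-/

namespace Pool.Agent.Results.MP_e2be99_lc.SparsePerturbations

open Finset MvPolynomial Pool.Agent.TH585.SP

/-- (1) The set `points n d p p'` hits every factor `F` of degree at most `d` of every product of
`m = #J` nonzero polynomials which are close to unions of exchange-closed sets, if `p` and `p'` are
primes above `e`, `n m N` and `e`, `n m ((N + 1) s + r) ^ 2`, respectively.  (2) The number and the
size of the points.  (3) Supports of sums of a polynomial with exchange-closed support and a sparse
polynomial.  (4) `M`-convex sets are closed under exchange with at most `n ^ 2` directions.  (5) So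
are the points of affine lattices in boxes, with the directions of a Graver basis. -/
theorem result.{u, v} :
    (∀ (R : Type u) [CommRing R] [IsDomain R] [CharZero R] (n : ℕ) (ι : Type v) (J : Finset ι)
      (f : ι → MvPolynomial (Fin n) R) (N r s e d p p' : ℕ),
      (∀ j ∈ J, f j ≠ 0) → (∀ j ∈ J, Close N r s e (f j)) →
      p.Prime → p'.Prime → e < p → e < p' →
      n * (J.card * N) < p → n * (J.card * ((N + 1) * s + r) ^ 2) < p' →
      ∀ F : MvPolynomial (Fin n) R, F ∣ ∏ j ∈ J, f j → F.totalDegree ≤ d →
        ∃ x ∈ points n d p p', eval (fun i => (x i : R)) F ≠ 0) ∧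
    (∀ n d p p' : ℕ, (points n d p p').card ≤ p * p' * ((p * d + 1) * (p' * d + 1)) ∧
      ∀ x ∈ points n d p p', ∀ i, 0 < x i ∧ x i ≤ (p * d + 1) ^ p * (p' * d + 1) ^ p') ∧
    (∀ (R : Type u) [CommRing R] (n s e : ℕ) (D : Finset (Fin n → ℤ))
      (g h : MvPolynomial (Fin n) R),
      Exchange (D : Set (Fin n → ℤ)) (g.support : Set (Fin n →₀ ℕ)) → h.support.card ≤ s →
      (∀ b ∈ g.support ∪ h.support, ∀ i, b i ≤ e) → Close D.card 1 s e (g + h)) ∧
    (∀ (n : ℕ), (unitMoves n).card ≤ n ^ 2 ∧ ∀ A : Set (Fin n →₀ ℕ), MConvex A →
      Exchange (unitMoves n : Set (Fin n → ℤ)) A) ∧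
    (∀ (n : ℕ) (L : AddSubgroup (Fin n → ℤ)) (G : Set (Fin n → ℤ)),
      (∀ z ∈ L, z ≠ 0 → ∃ g ∈ G, g ∈ L ∧ g ≠ 0 ∧
        ∀ i, (0 ≤ g i ∧ g i ≤ z i) ∨ (z i ≤ g i ∧ g i ≤ 0)) →
      ∀ (c : Fin n →₀ ℕ) (lo hi : Fin n → ℕ),
        Exchange G {b : Fin n →₀ ℕ | dif b c ∈ L ∧ ∀ i, lo i ≤ b i ∧ b i ≤ hi i}) := by
  classical
  refine ⟨?_, ?_, ?_, ?_, ?_⟩
  · intro R _ _ _ n ι J f N r s e d p p' hf0 hf hp hp' hep hep' h1 h2 F hF hFd
    exact hit J f N r s e d p p' hf0 hf hp hp' hep hep' h1 h2 F hF hFd
  · intro n d p p'
    refine ⟨card_points n d p p', fun x hx i => ?_⟩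
    unfold points at hx
    rw [Finset.mem_image] at hx
    obtain ⟨⟨⟨k, l⟩, ⟨a, b⟩⟩, hs, rfl⟩ := hx
    simp only [Finset.mem_product, Finset.mem_range, Finset.mem_Icc] at hs
    obtain ⟨⟨hk, hl⟩, ⟨ha, ha'⟩, hb, hb'⟩ := hs
    have hp : 0 < p := by omega
    have hp' : 0 < p' := by omega
    constructor
    · positivity
    · refine Nat.mul_le_mul ?_ ?_
      · calc a ^ (k ^ (i : ℕ) % p) ≤ (p * d + 1) ^ (k ^ (i : ℕ) % p) :=
              Nat.pow_le_pow_left ha' _
          _ ≤ (p * d + 1) ^ p :=
              Nat.pow_le_pow_right (Nat.succ_pos _) (Nat.mod_lt _ hp).le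
      · calc b ^ (l ^ (i : ℕ) % p') ≤ (p' * d + 1) ^ (l ^ (i : ℕ) % p') :=
              Nat.pow_le_pow_left hb' _
          _ ≤ (p' * d + 1) ^ p' :=
              Nat.pow_le_pow_right (Nat.succ_pos _) (Nat.mod_lt _ hp').le
  · intro R _ n s e D g h hex hs he
    refine ⟨D, fun _ => (g.support : Set (Fin n →₀ ℕ)), h.support, le_rfl, hs, fun _ => hex,
      fun _ a ha => he a (Finset.mem_union_left _ ha), fun a ha => ?_, fun b hb => ?_⟩
    · exact he a (support_add ha)
    · rw [mem_support_iff, coeff_add, notMem_support_iff.1 hb, add_zero, ← mem_support_iff]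
      constructor
      · intro h
        exact ⟨0, h⟩
      · rintro ⟨_, h⟩
        exact h
  · intro n
    exact ⟨card_unitMoves n, fun A hA => exchange_of_mconvex hA⟩
  · intro n L G hG c lo hi
    exact exchange_of_graver L G hG c lo hi

end Pool.Agent.Results.MP_e2be99_lc.SparsePerturbations
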