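import Mathlib
import Pool.Agent.TH585.TR.Shape

/-!
# Identity testing for sums of `k` products of determinants of almost minimal tensor rank

A depth-3 circuit of top fan-in `k` computes a sum of `k` products of affine forms, that is, of `k`
determinants of diagonal matrices.  We give explicit hitting sets of polynomial size, for constant
`k`, `c`, `δ`, for the sums of `k` terms each of which is a product, of any number of factors, of
determinants of matrices of any size `n`,

  `M(x) = ∑_{i < N} ℓ_i(x) u_i v_iᵀ + U X(x) + Y(x) V`,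

with unknown affine forms `ℓ_i`, constant vectors `u_i`, `v_i`, constant matrices `U` (with `r₁`
columns) and `V` (with `r₂` rows), and matrices `X`, `Y` of arbitrary polynomials of degree at most
`e`.  The defects `N + r₁ + r₂ - n` of the determinants of a term add up to at most `c`, the numbers
`e (r₁ + r₂)` to at most `δ`.  (For `r₁ = r₂ = 0` the matrix `M` is a tensor of rank at most
`n + defect`; written out, its determinant is a sum of `binom N n` products of affine forms.)  Terms
may also contain sums `∑_{#S ≤ c} P_S ∏_{i ∉ S} ℓ_i` with arbitrary polynomials `P_S` of degree at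
most `δ` and any number of affine forms `ℓ_i`, and derivatives.  The hitting set applies to all
divisors of products of such sums.

The proof: all the terms are clusters of products of affine forms (multilinear expansion of the
determinants), to which the cluster theorem of the starting repository (`Pool.Agent.H626R2.Clu`,
used there for circuits of exponential degree) applies.
-/

set_option autoImplicit false

namespace Pool.Agent.Results.MP_e2be99_lc.SumsOfNearDiagonal

open MvPolynomial

/-- `f` is an affine form `β + ∑ a_k x_k`. -/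
def IsAffine {m : ℕ} (f : MvPolynomial (Fin m) ℂ) : Prop :=
  ∃ (β : ℂ) (a : Fin m → ℂ), f = C β + ∑ k, C (a k) * X k

/-- a matrix of complex numbers as a matrix of constant polynomials -/
noncomputable def cst (m : ℕ) {a b : ℕ} (P : Matrix (Fin a) (Fin b) ℂ) :
    Matrix (Fin a) (Fin b) (MvPolynomial (Fin m) ℂ) := P.map C

/-- `M = ∑_{i < N} ℓ_i u_i v_iᵀ + U X + Y V` with affine forms `ℓ_i`, constant `u_i`, `v_i`, `U`, `V`,
and matrices `X`, `Y` of polynomials of degree at most `e`; `U` has `r₁` columns, `V` has `r₂` rows. -/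
def Shape {m p q : ℕ} (N r₁ r₂ e : ℕ) (M : Matrix (Fin p) (Fin q) (MvPolynomial (Fin m) ℂ)) :
    Prop :=
  ∃ (l : Fin N → MvPolynomial (Fin m) ℂ) (u : Fin N → Fin p → ℂ) (v : Fin N → Fin q → ℂ)
    (U : Matrix (Fin p) (Fin r₁) ℂ) (X : Matrix (Fin r₁) (Fin q) (MvPolynomial (Fin m) ℂ))
    (Y : Matrix (Fin p) (Fin r₂) (MvPolynomial (Fin m) ℂ)) (V : Matrix (Fin r₂) (Fin q) ℂ),
    (∀ i, IsAffine (l i)) ∧ (∀ a j, (X a j).totalDegree ≤ e) ∧
    (∀ i b, (Y i b).totalDegree ≤ e) ∧
    M = (∑ i, l i • cst m (Matrix.vecMulVec (u i) (v i))) + cst m U * X + Y * cst m V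

/-- `Term c δ f`: the polynomial `f` is a term of defect at most `c` and degree defect at most `δ`. -/
inductive Term {m : ℕ} : ℕ → ℕ → MvPolynomial (Fin m) ℂ → Prop
  /-- affine forms -/
  | affine {l : MvPolynomial (Fin m) ℂ} : IsAffine l → Term 0 0 l
  /-- polynomials of degree at most `δ` -/
  | low {δ : ℕ} {P : MvPolynomial (Fin m) ℂ} : P.totalDegree ≤ δ → Term 0 δ P
  /-- sums of products which omit at most `c` of the factors of one product of affine forms -/
  | cluster {c δ N : ℕ} (l : Fin N → MvPolynomial (Fin m) ℂ)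
      (P : Finset (Fin N) → MvPolynomial (Fin m) ℂ) : (∀ i, IsAffine (l i)) →
      (∀ S, (P S).totalDegree ≤ δ) →
      Term c δ (∑ S with S.card ≤ c, P S * ∏ i ∈ Sᶜ, l i)
  /-- determinants of bordered matrices of almost minimal tensor rank -/
  | det {n N r₁ r₂ e c : ℕ} {M : Matrix (Fin n) (Fin n) (MvPolynomial (Fin m) ℂ)} :
      Shape N r₁ r₂ e M → N + r₁ + r₂ ≤ n + c → Term c (e * (r₁ + r₂)) M.det
  /-- derivatives -/
  | deriv {c δ : ℕ} {f : MvPolynomial (Fin m) ℂ} (k : Fin m) : Term c δ f →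
      Term (c + 1) δ (pderiv k f)
  /-- products; the defects are added -/
  | mul {c δ c' δ' : ℕ} {f g : MvPolynomial (Fin m) ℂ} : Term c δ f → Term c' δ' g →
      Term (c + c') (δ + δ') (f * g)
  | mono {c δ c' δ' : ℕ} {f : MvPolynomial (Fin m) ℂ} : Term c δ f → c ≤ c' → δ ≤ δ' →
      Term c' δ' f

/-- The point with seeds `y, z`: its coordinates are `∑_t y_t z_t ^ i`, `i = 0, …, m - 1`. -/
def point (m T : ℕ) (y z : Fin T → ℕ) : Fin m → ℤ :=
  fun i => ∑ t, (y t : ℤ) * (z t : ℤ) ^ (i : ℕ)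

/-- The explicit set of all points with seeds `y ∈ {0,…,D}^T`, `z ∈ {0,…,mD}^T`. -/
def points (m T D : ℕ) : Finset (Fin m → ℤ) :=
  ((Fintype.piFinset fun _ : Fin T => Finset.range (D + 1)) ×ˢ
    (Fintype.piFinset fun _ : Fin T => Finset.range (m * D + 1))).image
    fun yz => point m T yz.1 yz.2

/-- The number of pairs of seeds for the sums of `k` terms. -/
def seeds (k c δ : ℕ) : ℕ := 2 ^ (k - 1) * (c + 1) + max (2 ^ (k - 1) * δ) 1 + k - 2

open Pool.Agent.H626R2.Clu in
theorem cls_of_fam {m N c δ : ℕ} {l : Fin N → MvPolynomial (Fin m) ℂ}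
    (hl : ∀ i, IsAffine (l i)) {f : MvPolynomial (Fin m) ℂ} (hf : f ∈ Fam Finset.univ l c δ) :
    Cls c δ f := by
  classical
  have h3 := Pool.Agent.TH585.TR.Fam_filter hf (Finset.univ.filter fun r => l r ≠ 0)
    (Finset.filter_subset _ _) (by
    intro r hr hr'
    by_contra hne
    exact hr' (Finset.mem_filter.2 ⟨hr, hne⟩))
  exact ⟨Fin N, inferInstance, _, l, fun r hr => ⟨hl r, (Finset.mem_filter.1 hr).2⟩, h3⟩

open Pool.Agent.H626R2.Clu in
theorem Term.cls {m c δ : ℕ} {f : MvPolynomial (Fin m) ℂ} (h : Term c δ f) : Cls c δ f := by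
  induction h with
  | @affine l hl =>
    refine cls_of_fam (N := 1) (l := fun _ => l) (fun _ => hl) ?_
    have h1 := Fam_mk (I := (Finset.univ : Finset (Fin 1))) (S := ∅) (l := fun _ => l) (c := 0)
      (δ := 0) (P := 1) (by simp) (by simp) (by simp)
    simpa using h1
  | @low δ P hP =>
    refine cls_of_fam (N := 0) (l := fun _ => 0) (fun i => i.elim0) ?_
    have h1 := Fam_mk (I := (Finset.univ : Finset (Fin 0))) (S := ∅)
      (l := fun _ => (0 : MvPolynomial (Fin m) ℂ)) (c := 0) (δ := δ) (P := P) (by simp) (by simp) hP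
    simpa using h1
  | @cluster c δ N l P hl hP =>
    refine cls_of_fam hl (Submodule.sum_mem _ fun S hS => ?_)
    rw [Finset.mem_filter] at hS
    rw [Finset.compl_eq_univ_sdiff]
    exact Fam_mk (Finset.subset_univ _) hS.2 (hP S)
  | det hM hN => exact Pool.Agent.TH585.TR.Shape.det_cls hM hN
  | deriv k _ ih =>
    obtain ⟨ι, dι, I, l, hl, hf⟩ := ih
    exact ⟨ι, dι, I, l, hl, Fam_pderiv k (fun r hr => (hl r hr).1) hf⟩
  | mul _ _ ih ih' =>
    obtain ⟨ι, dι, I, l, hl, hf⟩ := ih
    obtain ⟨ι', dι', I', l', hl', hg⟩ := ih'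
    refine ⟨ι ⊕ ι', inferInstance, I.disjSum I', Sum.elim l l', ?_, Fam_mul hf hg⟩
    intro r hr
    rcases r with r | r
    · rw [Finset.inl_mem_disjSum] at hr
      exact hl r hr
    · rw [Finset.inr_mem_disjSum] at hr
      exact hl' r hr
  | mono _ hc hδ ih =>
    obtain ⟨ι, dι, I, l, hl, hf⟩ := ih
    exact ⟨ι, dι, I, l, hl, Fam_mono hc hδ hf⟩

/-- For all `k ≥ 1`, `c`, `δ`, `m`, `D` the explicit set `points m (seeds k c δ) D ⊆ ℤ^m` has at most
`((D+1)(mD+1))^(seeds k c δ)` elements, with coordinates of polynomial bit length, and it hits every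
polynomial of degree at most `D` which divides a product, of any number of factors, of nonzero sums
of `k` terms of defect at most `c` and degree defect at most `δ`. -/
theorem result (k c δ m D : ℕ) (hk : 1 ≤ k) :
    (points m (seeds k c δ) D).card ≤ ((D + 1) * (m * D + 1)) ^ seeds k c δ ∧
    (∀ x ∈ points m (seeds k c δ) D, ∀ i,
      |x i| ≤ ((seeds k c δ * D * (m * D + 1) ^ (m - 1) : ℕ) : ℤ)) ∧
    ∀ (s : ℕ) (F : Fin s → Fin k → MvPolynomial (Fin m) ℂ) (f : MvPolynomial (Fin m) ℂ),
      (∀ a j, Term c δ (F a j)) → (∀ a, ∑ j, F a j ≠ 0) → f ∣ ∏ a, ∑ j, F a j →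
      f.totalDegree ≤ D →
      ∃ x ∈ points m (seeds k c δ) D, eval (fun i => (x i : ℂ)) f ≠ 0 := by
  refine ⟨Pool.Agent.TH585.TR.momPoints_card m _ D,
    fun x hx i => Pool.Agent.TH585.TR.momPoints_bound m _ D x hx i, ?_⟩
  intro s F f hF hne hdvd hD
  refine Pool.Agent.TH585.TR.exists_hit m (seeds k c δ) D f hD fun h0 => ?_
  obtain ⟨g, hg⟩ := hdvd
  have h1 : Pool.Agent.H626R2.Clu.ge (0 : Fin m → ℂ) (Pool.Agent.TH585.TR.mom m) (seeds k c δ)
      (∏ a, ∑ j, F a j) = 0 := by
    rw [hg, map_mul, h0, zero_mul]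
  rw [map_prod, Finset.prod_eq_zero_iff] at h1
  obtain ⟨a, -, ha⟩ := h1
  obtain ⟨k, rfl⟩ : ∃ k', k = k' + 1 := ⟨k - 1, by omega⟩
  refine hne a (Pool.Agent.H626R2.Clu.clusters 0 (Pool.Agent.TH585.TR.mom_indep m) k c δ
    (seeds (k + 1) c δ) (F a) (fun j => (hF a j).cls) ?_ ha)
  have h2 := Pool.Agent.H626R2.Clu.Tn_eq k c δ
  unfold seeds
  rw [Nat.add_sub_cancel]
  omega

end Pool.Agent.Results.MP_e2be99_lc.SumsOfNearDiagonal
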